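import Pool.Agent.H22.FOT.Defs

/-! Row DLM of the board `fot`: densities of an encoded continuous kernel converge. -/

set_option autoImplicit false

open MeasureTheory unitInterval Set Filter Topology

namespace Pool.FOT

open Pool.Agent.H99.LowerTail

theorem t_dlm (hPPI : PPIStmt) : DLMStmt := by
  intro V _ F Φ hΦ ν hν hlim φ hs
  have hpr : ∀ n, IsProbabilityMeasure ((volume : Measure I).map (Φ n)) := fun n =>
    Measure.isProbabilityMeasure_map (hΦ n).aemeasurable
  have hP := hPPI V KK (fun n => (volume : Measure I).map (Φ n)) ν hpr hν hlim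
  have hc : Continuous (fun x : V → KK => ∏ e ∈ F, sVal (fun x y => φ (x, y)) hs x e) := by
    refine continuous_finsetProd _ fun e _ => ?_
    induction e using Sym2.ind with
    | _ i j => exact φ.continuous.comp ((continuous_apply i).prodMk (continuous_apply j))
  let g : C(V → KK, ℝ) := ⟨_, hc⟩
  have hg := hP g
  refine hg.congr fun n => ?_
  have hm : Measurable (fun (x : V → I) (i : V) => Φ n (x i)) :=
    measurable_pi_lambda _ fun i => (hΦ n).comp (measurable_pi_apply i)
  have h1 : (Measure.pi fun _ : V => (volume : Measure I).map (Φ n)) =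
      (Measure.pi fun _ : V => (volume : Measure I)).map
        (fun (x : V → I) (i : V) => Φ n (x i)) := by
    rw [← Measure.pi_map_pi (fun _ => (hΦ n).aemeasurable)]
  show ∫ x : V → KK, g x ∂(Measure.pi fun _ : V => (volume : Measure I).map (Φ n)) = _
  rw [h1, integral_map hm.aemeasurable g.continuous.measurable.aestronglyMeasurable]
  unfold sDens
  refine integral_congr_ae (Eventually.of_forall fun x => ?_)
  show ∏ e ∈ F, sVal (fun x y => φ (x, y)) hs (fun i => Φ n (x i)) e = _
  refine Finset.prod_congr rfl fun e _ => ?_
  induction e using Sym2.ind with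
  | _ i j => rfl

end Pool.FOT
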