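import Pool.Agent.H22.FOT.Defs

/-! Row LIM of the board `fot`: weak limit of a sequence of encoded graphons. -/

set_option autoImplicit false

open MeasureTheory unitInterval Set Filter Topology

namespace Pool.FOT

open Pool.Agent.H99.LowerTail

namespace H8L

lemma convexOn_relEnt {p : ℝ} (hp0 : 0 < p) (hp1 : p < 1) :
    ConvexOn ℝ (Icc (0 : ℝ) 1) (relEnt p) := by
  have h1 : ConvexOn ℝ (Icc (0 : ℝ) 1) (fun x => x * Real.log x) :=
    Real.convexOn_mul_log.subset (fun x hx => hx.1) (convex_Icc 0 1)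
  refine ⟨convex_Icc 0 1, ?_⟩
  intro x hx y hy a b ha hb hab
  have e1 := h1.2 hx hy ha hb hab
  have hx' : 1 - x ∈ Icc (0 : ℝ) 1 := ⟨by linarith [hx.2], by linarith [hx.1]⟩
  have hy' : 1 - y ∈ Icc (0 : ℝ) 1 := ⟨by linarith [hy.2], by linarith [hy.1]⟩
  have e2 := h1.2 hx' hy' ha hb hab
  simp only [smul_eq_mul] at e1 e2 ⊢
  rw [relEnt_eq hp0 hp1, relEnt_eq hp0 hp1, relEnt_eq hp0 hp1]
  have hb' : b = 1 - a := by linarith
  subst hb'
  have e3 : a * (1 - x) + (1 - a) * (1 - y) = 1 - (a * x + (1 - a) * y) := by ring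
  rw [e3] at e2
  nlinarith [e1, e2]

/-- The joint law. -/
noncomputable def jm (Φ : I → KK) (W : Graphon) : Measure ((KK × KK) × I) :=
  (volume : Measure (I × I)).map
    (fun z => ((Φ z.1, Φ z.2), (⟨W z.1 z.2, W.nonneg' _ _, W.le_one' _ _⟩ : I)))

lemma meas_j (Φ : I → KK) (hΦ : Measurable Φ) (W : Graphon) :
    Measurable (fun z : I × I =>
      ((Φ z.1, Φ z.2), (⟨W z.1 z.2, W.nonneg' _ _, W.le_one' _ _⟩ : I))) := by
  refine Measurable.prodMk ?_ ?_
  · exact (hΦ.comp measurable_fst).prodMk (hΦ.comp measurable_snd)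
  · exact Measurable.subtype_mk W.measurable'

lemma jm_prob (Φ : I → KK) (hΦ : Measurable Φ) (W : Graphon) :
    IsProbabilityMeasure (jm Φ W) := by
  unfold jm
  exact Measure.isProbabilityMeasure_map (meas_j Φ hΦ W).aemeasurable

lemma jm_fst (Φ : I → KK) (hΦ : Measurable Φ) (W : Graphon) :
    (jm Φ W).map Prod.fst = ((volume : Measure I).map Φ).prod ((volume : Measure I).map Φ) := by
  unfold jm
  rw [Measure.map_map measurable_fst (meas_j Φ hΦ W)]
  rw [Measure.map_prod_map _ _ hΦ hΦ]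
  rfl

lemma jm_int (Φ : I → KK) (hΦ : Measurable Φ) (W : Graphon) (f : (KK × KK) × I → ℝ)
    (hf : Measurable f) :
    ∫ z, f z ∂(jm Φ W) = ∫ z : I × I, f ((Φ z.1, Φ z.2),
      (⟨W z.1 z.2, W.nonneg' _ _, W.le_one' _ _⟩ : I)) := by
  unfold jm
  rw [integral_map (meas_j Φ hΦ W).aemeasurable hf.aestronglyMeasurable]

end H8L

open H8L

theorem t_lim (hWLX : WLXStmt) (hCEX : CEXStmt) (hPRD : PRDStmt) : LIMStmt := by
  intro p hp0 hp1 W Φ hΦ
  have hpr : ∀ n, IsProbabilityMeasure ((volume : Measure I).map (Φ n)) := fun n =>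
    Measure.isProbabilityMeasure_map (hΦ n).aemeasurable
  obtain ⟨ν, hν, hlim⟩ := hWLX KK (fun n => (volume : Measure I).map (Φ n)) hpr
  have hprod := hPRD KK KK _ ν _ ν hpr hν hpr hν hlim hlim
  have hX := hCEX (KK × KK) (fun n => jm (Φ n) (W n)) (fun n => jm_prob _ (hΦ n) _)
    (ν.prod ν) inferInstance (by
      have h : (fun n => (jm (Φ n) (W n)).map Prod.fst) =
          fun n => ((volume : Measure I).map (Φ n)).prod ((volume : Measure I).map (Φ n)) :=
        funext fun n => jm_fst _ (hΦ n) _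
      rw [h]
      exact hprod)
  obtain ⟨α, hαm, hα, hg, hJ⟩ := hX
  -- the symmetrised kernel
  have hαs : Measurable (fun z : KK × KK => α (z.2, z.1)) := hαm.comp measurable_swap
  let U : GK KK :=
    { toFun := fun x y => (α (x, y) + α (y, x)) / 2
      measurable' := (hαm.add hαs).div_const 2
      symm' := fun x y => by rw [add_comm]
      nonneg' := fun x y => by
        have h1 := (hα (x, y)).1
        have h2 := (hα (y, x)).1
        positivity
      le_one' := fun x y => by
        have h1 := (hα (x, y)).2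
        have h2 := (hα (y, x)).2
        linarith }
  have hU : ∀ x y, U x y = (α (x, y) + α (y, x)) / 2 := fun _ _ => rfl
  -- limits of the integrals against `α`
  have hg' : ∀ g : C(KK × KK, ℝ), Tendsto
      (fun n => ∫ z : I × I, g (Φ n z.1, Φ n z.2) * W n z.1 z.2)
      (hyperfilter ℕ : Filter ℕ) (𝓝 (∫ z : KK × KK, g z * α z ∂(ν.prod ν))) := by
    intro g
    refine (hg g).congr fun n => ?_
    rw [jm_int (Φ n) (hΦ n) (W n) (fun z => g z.1 * (z.2 : ℝ))
      ((g.continuous.measurable.comp measurable_fst).mul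
        (measurable_subtype_coe.comp measurable_snd))]
  have hb : ∀ (g : C(KK × KK, ℝ)), ∃ C, ∀ z, |g z| ≤ C := by
    intro g
    obtain ⟨C, hC⟩ := isCompact_univ.exists_bound_of_continuousOn (g.continuous.continuousOn)
    exact ⟨C, fun z => hC z (mem_univ z)⟩
  have hint : ∀ (g : C(KK × KK, ℝ)) (β : KK × KK → ℝ), Measurable β →
      (∀ z, β z ∈ Icc (0 : ℝ) 1) → Integrable (fun z => g z * β z) (ν.prod ν) := by
    intro g β hβm hβ
    obtain ⟨C, hC⟩ := hb g
    refine Integrable.of_bound (g.continuous.measurable.mul hβm).aestronglyMeasurable C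
      (Eventually.of_forall fun z => ?_)
    rw [Real.norm_eq_abs, abs_mul, abs_of_nonneg (hβ z).1]
    calc |g z| * β z ≤ |g z| * 1 := by
          exact mul_le_mul_of_nonneg_left (hβ z).2 (abs_nonneg _)
      _ ≤ C := by rw [mul_one]; exact hC z
  have hswap : ∀ (f : KK × KK → ℝ),
      ∫ z : KK × KK, f (z.2, z.1) ∂(ν.prod ν) = ∫ z : KK × KK, f z ∂(ν.prod ν) := by
    intro f
    exact integral_prod_swap f
  have hsym : ∀ g : C(KK × KK, ℝ), ∫ z : KK × KK, g z * α (z.2, z.1) ∂(ν.prod ν) =
      ∫ z : KK × KK, g z * α z ∂(ν.prod ν) := by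
    intro g
    let gs : C(KK × KK, ℝ) := ⟨fun z => g (z.2, z.1), g.continuous.comp continuous_swap⟩
    have h1 : ∫ z : KK × KK, g z * α (z.2, z.1) ∂(ν.prod ν) =
        ∫ z : KK × KK, gs z * α z ∂(ν.prod ν) := by
      rw [← hswap (fun z => gs z * α z)]
      rfl
    rw [h1]
    refine tendsto_nhds_unique (hg' gs) ?_
    refine (hg' g).congr fun n => ?_
    have h2 : ∫ z : I × I, g (Φ n z.1, Φ n z.2) * W n z.1 z.2 =
        ∫ z : I × I, (fun w : I × I => gs (Φ n w.1, Φ n w.2) * W n w.1 w.2) z.swap := by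
      refine integral_congr_ae (Eventually.of_forall fun z => ?_)
      show g (Φ n z.1, Φ n z.2) * W n z.1 z.2 = g (Φ n z.1, Φ n z.2) * W n z.2 z.1
      rw [(W n).symm' z.2 z.1]
    rw [h2, Measure.volume_eq_prod]
    exact integral_prod_swap (μ := (volume : Measure I)) (ν := (volume : Measure I))
      (fun w : I × I => gs (Φ n w.1, Φ n w.2) * W n w.1 w.2)
  refine ⟨ν, U, hν, hlim, ?_, ?_⟩
  · intro g
    have h1 : ∫ z : KK × KK, g z * U z.1 z.2 ∂(ν.prod ν) =
        ∫ z : KK × KK, g z * α z ∂(ν.prod ν) := by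
      have h2 : (fun z : KK × KK => g z * U z.1 z.2) =
          fun z => (g z * α z) / 2 + (g z * α (z.2, z.1)) / 2 := by
        funext z
        rw [hU]
        ring
      rw [h2, integral_add ((hint g α hαm hα).div_const 2)
        ((hint g (fun z => α (z.2, z.1)) hαs (fun z => hα _)).div_const 2),
        integral_div, integral_div, hsym g]
      ring
    rw [h1]
    exact hg' g
  · intro c hc
    have hJc := hJ (relEnt p) (continuous_relEnt hp0 hp1) (convexOn_relEnt hp0 hp1) c (by
      filter_upwards [hc] with n hn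
      rw [jm_int (Φ n) (hΦ n) (W n) (fun z => relEnt p (z.2 : ℝ))
        ((continuous_relEnt hp0 hp1).measurable.comp
          (measurable_subtype_coe.comp measurable_snd))]
      exact hn)
    refine le_trans ?_ hJc
    obtain ⟨C, hC⟩ := isCompact_Icc.exists_bound_of_continuousOn
      ((continuous_relEnt hp0 hp1).continuousOn (s := Icc 0 1))
    have hi : ∀ β : KK × KK → ℝ, Measurable β → (∀ z, β z ∈ Icc (0 : ℝ) 1) →
        Integrable (fun z => relEnt p (β z)) (ν.prod ν) := by
      intro β hβm hβ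
      refine Integrable.of_bound
        ((continuous_relEnt hp0 hp1).measurable.comp hβm).aestronglyMeasurable C
        (Eventually.of_forall fun z => hC _ (hβ z))
    have h1 : ∫ z : KK × KK, relEnt p (U z.1 z.2) ∂(ν.prod ν) ≤
        ∫ z : KK × KK, (relEnt p (α z) / 2 + relEnt p (α (z.2, z.1)) / 2) ∂(ν.prod ν) := by
      refine integral_mono (hi (fun z => U z.1 z.2) U.measurable'
        (fun z => ⟨U.nonneg' _ _, U.le_one' _ _⟩))
        (((hi α hαm hα).div_const 2).add
          ((hi (fun z => α (z.2, z.1)) hαs (fun z => hα _)).div_const 2)) ?_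
      intro z
      have h2 := (convexOn_relEnt hp0 hp1).2 (hα z) (hα (z.2, z.1))
        (show (0 : ℝ) ≤ 1 / 2 by norm_num) (show (0 : ℝ) ≤ 1 / 2 by norm_num) (by norm_num)
      simp only [smul_eq_mul] at h2
      show relEnt p (U z.1 z.2) ≤ relEnt p (α z) / 2 + relEnt p (α (z.2, z.1)) / 2
      rw [hU]
      have e1 : (α (z.1, z.2) + α (z.2, z.1)) / 2 = 1 / 2 * α z + 1 / 2 * α (z.2, z.1) := by
        show (α z + α (z.2, z.1)) / 2 = _
        ring
      rw [e1]
      linarith
    refine h1.trans (le_of_eq ?_)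
    rw [integral_add ((hi α hαm hα).div_const 2)
      ((hi (fun z => α (z.2, z.1)) hαs (fun z => hα _)).div_const 2), integral_div, integral_div,
      hswap (fun z => relEnt p (α z))]
    ring

end Pool.FOT


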