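import Pool.Agent.H22.FOT.Defs

/-! Row LM1 of the board `fot`: weak limit of encoded functions. -/

set_option autoImplicit false

open MeasureTheory unitInterval Set Filter Topology

namespace Pool.FOT

open Pool.Agent.H99.LowerTail

theorem t_lm1 (hCEX : CEXStmt) : LM1Stmt := by
  intro Φ hΦ ν hν hlim a ham ha
  let f : ∀ n, I → KK × I := fun n x => (Φ n x, (⟨a n x, ha n x⟩ : I))
  have hfm : ∀ n, Measurable (f n) := fun n => (hΦ n).prodMk ((ham n).subtype_mk)
  have hX := hCEX KK (fun n => (volume : Measure I).map (f n))
    (fun n => Measure.isProbabilityMeasure_map (hfm n).aemeasurable) ν hν (by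
      have h : (fun n => ((volume : Measure I).map (f n)).map Prod.fst) =
          fun n => (volume : Measure I).map (Φ n) := by
        funext n
        rw [Measure.map_map measurable_fst (hfm n)]
        rfl
      rw [h]
      exact hlim)
  obtain ⟨α, hαm, hα, hg, -⟩ := hX
  refine ⟨α, hαm, hα, fun g => ?_⟩
  refine (hg g).congr fun n => ?_
  have hm : Measurable (fun z : KK × I => g z.1 * (z.2 : ℝ)) :=
    (g.continuous.measurable.comp measurable_fst).mul
        (measurable_subtype_coe.comp measurable_snd)
  rw [integral_map (hfm n).aemeasurable hm.aestronglyMeasurable]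

end Pool.FOT
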